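import Pool.Agent.H63.GLF.Pos

/-!
# Names of vectors, of the space, of automorphisms and of the generic subgroup
-/

set_option autoImplicit false

namespace Pool.Agent.H63.GLF

open Pool.Agent.H90.Frc Pool.Agent.H14.GLCH Ordinal Cardinal

/-- name of a vector, that is, of its support -/
noncomputable def vN (v : V0) : Name Cnd := .mk {n : ℕ // v n ≠ 0} (fun n => onN Cnd n.1) (fun _ => ⊤)

/-- name of the space -/
noncomputable def spN : Name Cnd := .mk V0 vN (fun _ => ⊤)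

/-- name of (the graph of) an automorphism -/
noncomputable def auN (h : G0) : Name Cnd := relN vN (fun v => vN (h v)) (fun _ => ⊤)

/-- name of the generic subgroup -/
noncomputable def grN : Name Cnd :=
  .mk (Σ p : Cnd, {h : G0 // h ∈ p.grp}) (fun x => auN x.2.1) (fun x => x.1)

variable {g : Gen Cnd}

theorem den_vN {v : V0} {x : g.M} (h : g.Den (vN v) x) (z : g.M) :
    g.E z x ↔ ∃ n : ℕ, v n ≠ 0 ∧ g.Den (onN Cnd n) z := by
  rw [Gen.mem_iff h]
  constructor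
  · rintro ⟨i, -, hi⟩
    exact ⟨i.1, i.2, hi⟩
  · rintro ⟨n, hn, hz⟩
    exact ⟨(⟨n, hn⟩ : {n : ℕ // v n ≠ 0}), g.top_mem, hz⟩

theorem den_nat_of_vN {v : V0} {x : g.M} (h : g.Den (vN v) x) {n : ℕ} (hn : v n ≠ 0) :
    ∃ b, g.Den (onN Cnd n) b :=
  h.of_countable (inferInstanceAs (Countable {n : ℕ // v n ≠ 0})) (⟨n, hn⟩ : {n : ℕ // v n ≠ 0})

theorem den_vN_nat {v : V0} {x b : g.M} {n : ℕ} (h : g.Den (vN v) x) (hb : g.Den (onN Cnd n) b) :
    g.E b x ↔ v n ≠ 0 := by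
  rw [den_vN h]
  constructor
  · rintro ⟨m, hm, hm'⟩
    have : (n : Ordinal.{0}) = m := onN_inj hb hm'
    have : n = m := by exact_mod_cast this
    rw [this]; exact hm
  · intro hn
    exact ⟨n, hn, hb⟩

theorem zmod2 (a b : ZMod 2) : (a ≠ 0 ↔ b ≠ 0) ↔ a = b := by
  revert a b; decide

theorem zmod2_add (a b : ZMod 2) : a + b ≠ 0 ↔ (a ≠ 0 ↔ ¬ b ≠ 0) := by
  revert a b; decide

theorem vN_inj {u v : V0} {x : g.M} (hu : g.Den (vN u) x) (hv : g.Den (vN v) x) : u = v := by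
  ext n
  rw [← zmod2]
  constructor
  · intro h
    obtain ⟨b, hb⟩ := den_nat_of_vN hu h
    exact (den_vN_nat hv hb).1 ((den_vN_nat hu hb).2 h)
  · intro h
    obtain ⟨b, hb⟩ := den_nat_of_vN hv h
    exact (den_vN_nat hu hb).1 ((den_vN_nat hv hb).2 h)

theorem isSum_iff {u v t : V0} {x y z : g.M} (hu : g.Den (vN u) x) (hv : g.Den (vN v) y)
    (ht : g.Den (vN t) z) : IsSum g.E x y z ↔ t = u + v := by
  constructor
  · intro h
    ext n
    rw [← zmod2, Finsupp.add_apply, zmod2_add]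
    by_cases h0 : u n ≠ 0 ∨ v n ≠ 0 ∨ t n ≠ 0
    · obtain ⟨b, hb⟩ : ∃ b, g.Den (onN Cnd n) b := by
        rcases h0 with h0 | h0 | h0
        · exact den_nat_of_vN hu h0
        · exact den_nat_of_vN hv h0
        · exact den_nat_of_vN ht h0
      have := h b
      rwa [den_vN_nat hu hb, den_vN_nat hv hb, den_vN_nat ht hb] at this
    · push Not at h0
      simp [h0.1, h0.2.1, h0.2.2]
  · rintro rfl b
    constructor
    · intro hb
      obtain ⟨n, hn, hb'⟩ := (den_vN ht b).1 hb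
      rw [den_vN_nat hu hb', den_vN_nat hv hb']
      rwa [Finsupp.add_apply, zmod2_add] at hn
    · intro hb
      have : ∃ n : ℕ, g.Den (onN Cnd n) b := by
        by_cases h1 : g.E b x
        · obtain ⟨n, -, hn⟩ := (den_vN hu b).1 h1
          exact ⟨n, hn⟩
        · have h2 : g.E b y := by
            by_contra h2
            exact h1 (hb.2 h2)
          obtain ⟨n, -, hn⟩ := (den_vN hv b).1 h2
          exact ⟨n, hn⟩
      obtain ⟨n, hn⟩ := this
      rw [den_vN_nat hu hn, den_vN_nat hv hn] at hb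
      rw [den_vN_nat ht hn, Finsupp.add_apply, zmod2_add]
      exact hb

theorem den_spN {V : g.M} (h : g.Den spN V) (x : g.M) : g.E x V ↔ ∃ v, g.Den (vN v) x := by
  rw [Gen.mem_iff h]
  constructor
  · rintro ⟨v, -, hv⟩
    exact ⟨v, hv⟩
  · rintro ⟨v, hv⟩
    exact ⟨(v : V0), g.top_mem, hv⟩

theorem exists_den_vN {V : g.M} (h : g.Den spN V) (v : V0) : ∃ x, g.Den (vN v) x :=
  h.of_countable (inferInstanceAs (Countable V0)) (v : V0)

theorem den_auN {h : G0} {a : g.M} (ha : g.Den (auN h) a) (x y : g.M) :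
    Rel g.E a x y ↔ ∃ v, g.Den (vN v) x ∧ g.Den (vN (h v)) y := by
  rw [den_relN ha]
  constructor
  · rintro ⟨v, -, h1, h2⟩
    exact ⟨v, h1, h2⟩
  · rintro ⟨v, h1, h2⟩
    exact ⟨v, g.top_mem, h1, h2⟩

theorem exists_rel_auN {h : G0} {a : g.M} (ha : g.Den (auN h) a) (v : V0) :
    ∃ x y, g.Den (vN v) x ∧ g.Den (vN (h v)) y ∧ Rel g.E a x y := by
  obtain ⟨c, hc⟩ := ha.of_countable (inferInstanceAs (Countable V0)) (v : V0)
  obtain ⟨x, y, hx, hy, -⟩ := den_opN hc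
  exact ⟨x, y, hx, hy, (den_auN ha x y).2 ⟨v, hx, hy⟩⟩

theorem auN_inj {h k : G0} {a : g.M} (ha : g.Den (auN h) a) (hk : g.Den (auN k) a) : h = k := by
  refine LinearEquiv.ext fun v => ?_
  obtain ⟨x, y, hx, hy, hxy⟩ := exists_rel_auN ha v
  obtain ⟨v', hx', hy'⟩ := (den_auN hk x y).1 hxy
  obtain rfl := vN_inj hx hx'
  exact vN_inj hy hy'

theorem den_grN {H : g.M} (h : g.Den grN H) (x : g.M) :
    g.E x H ↔ ∃ p ∈ g.G, ∃ k ∈ p.grp, g.Den (auN k) x := by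
  rw [Gen.mem_iff h]
  constructor
  · rintro ⟨i, hi, hx⟩
    exact ⟨i.1, hi, i.2.1, i.2.2, hx⟩
  · rintro ⟨p, hp, k, hk, hx⟩
    exact ⟨(⟨p, ⟨k, hk⟩⟩ : Σ p : Cnd, {h : G0 // h ∈ p.grp}), hp, hx⟩

/-! ### The space -/

theorem isFinSets_spN {w V : g.M} (hw : g.Den (onN Cnd ω) w) (hV : g.Den spN V) :
    IsFinSets g.E w V := by
  intro x
  constructor
  · intro hx
    obtain ⟨v, hv⟩ := (den_spN hV x).1 hx
    refine ⟨fun z hz => ?_, ?_⟩
    · obtain ⟨n, -, hn⟩ := (den_vN hv z).1 hz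
      exact (den_onN hw z).2 ⟨n, natCast_lt_omega0 n, hn⟩
    · obtain ⟨b, hb⟩ := exists_den_nat hw (v.support.sup id + 1)
      refine ⟨b, (den_onN hw b).2 ⟨_, natCast_lt_omega0 _, hb⟩, fun m hm => ?_⟩
      obtain ⟨n, hn, hn'⟩ := (den_vN hv m).1 hm
      refine (onN_mem_iff hn' hb).2 ?_
      have : n ≤ v.support.sup id := Finset.le_sup (f := id) (Finsupp.mem_support_iff.2 hn)
      exact_mod_cast Nat.lt_succ_of_le this
  · rintro ⟨hx, b, hb, hbx⟩
    obtain ⟨β, hβ, hbβ⟩ := (den_onN hw b).1 hb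
    obtain ⟨N, rfl⟩ := lt_omega0.1 hβ
    classical
    let v : V0 := Finsupp.onFinset (Finset.range N)
      (fun n => if n < N ∧ ∃ c, g.Den (onN Cnd n) c ∧ g.E c x then 1 else 0) (by
        intro n hn
        simp only [ne_eq, ite_eq_right_iff, one_ne_zero, imp_false, not_not] at hn
        exact Finset.mem_range.2 hn.1)
    have hv : ∀ n, v n ≠ 0 ↔ (n < N ∧ ∃ c, g.Den (onN Cnd n) c ∧ g.E c x) := by
      intro n
      simp [v]
    obtain ⟨y, hy⟩ := exists_den_vN hV v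
    have : x = y := by
      refine Gen.extensional fun z => ?_
      rw [den_vN hy]
      constructor
      · intro hz
        obtain ⟨γ, hγ, hzγ⟩ := (den_onN hw z).1 (hx z hz)
        obtain ⟨n, rfl⟩ := lt_omega0.1 hγ
        have h1 := (onN_mem_iff hzγ hbβ).1 (hbx z hz)
        exact ⟨n, (hv n).2 ⟨by exact_mod_cast h1, z, hzγ, hz⟩, hzγ⟩
      · rintro ⟨n, hn, hz⟩
        obtain ⟨-, c, hc, hcx⟩ := (hv n).1 hn
        rw [hz.unique hc]
        exact hcx
    rw [this]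
    exact (den_spN hV y).2 ⟨v, hy⟩

/-! ### Automorphisms -/

theorem isLinAut_auN {V a : g.M} (hV : g.Den spN V) {h : G0} (ha : g.Den (auN h) a) :
    IsLinAut g.E V a := by
  refine ⟨fun c hc => ?_, fun x hx => ?_, fun y hy => ?_, fun x y y' h1 h2 => ?_,
    fun x x' y h1 h2 => ?_, fun x y z x' y' z' h1 h2 h3 h4 => ?_⟩
  · obtain ⟨v, -, hv⟩ := (Gen.mem_iff ha).1 hc
    obtain ⟨x, y, hx, hy, hxy⟩ := den_opN hv
    exact ⟨x, y, (den_spN hV x).2 ⟨_, hx⟩, (den_spN hV y).2 ⟨_, hy⟩, hxy⟩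
  · obtain ⟨v, hv⟩ := (den_spN hV x).1 hx
    obtain ⟨x', y, hx', -, hxy⟩ := exists_rel_auN ha v
    rw [hv.unique hx']
    exact ⟨y, hxy⟩
  · obtain ⟨v, hv⟩ := (den_spN hV y).1 hy
    obtain ⟨x, y', -, hy', hxy⟩ := exists_rel_auN ha (h.symm v)
    rw [LinearEquiv.apply_symm_apply] at hy'
    rw [hv.unique hy']
    exact ⟨x, hxy⟩
  · obtain ⟨v, hv, hy⟩ := (den_auN ha x y).1 h1
    obtain ⟨v', hv', hy'⟩ := (den_auN ha x y').1 h2
    obtain rfl := vN_inj hv hv'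
    exact hy.unique hy'
  · obtain ⟨v, hv, hy⟩ := (den_auN ha x y).1 h1
    obtain ⟨v', hv', hy'⟩ := (den_auN ha x' y).1 h2
    have := h.injective (vN_inj hy hy')
    subst this
    exact hv.unique hv'
  · obtain ⟨u, hu, hu'⟩ := (den_auN ha _ _).1 h1
    obtain ⟨v, hv, hv'⟩ := (den_auN ha _ _).1 h2
    obtain ⟨t, ht, ht'⟩ := (den_auN ha _ _).1 h3
    rw [isSum_iff hu hv ht] at h4
    rw [isSum_iff hu' hv' ht', h4, map_add]

end Pool.Agent.H63.GLF
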