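import Pool.Agent.H63.GLF.Den

/-!
# The generic subgroup is a proper subgroup of `GL(V)` inducing `GL(U)` on every large `U`
-/

set_option autoImplicit false

namespace Pool.Agent.H63.GLF

open Pool.Agent.H90.Frc Pool.Agent.H14.GLCH Ordinal Cardinal

variable {g : Gen Cnd}

/-- the graph of the composite -/
theorem comp_auN {h k : G0} {a b c : g.M} (ha : g.Den (auN h) a) (hb : g.Den (auN k) b)
    (hc : g.Den (auN (k * h)) c) (x z : g.M) :
    Rel g.E c x z ↔ ∃ y, Rel g.E a x y ∧ Rel g.E b y z := by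
  constructor
  · intro hr
    obtain ⟨v, hv, hz⟩ := (den_auN hc x z).1 hr
    obtain ⟨x', y, hx', hy, hxy⟩ := exists_rel_auN ha v
    rw [← hv.unique hx'] at hxy
    exact ⟨y, hxy, (den_auN hb y z).2 ⟨h v, hy, hz⟩⟩
  · rintro ⟨y, hxy, hyz⟩
    obtain ⟨v, hv, hy⟩ := (den_auN ha x y).1 hxy
    obtain ⟨v', hv', hz⟩ := (den_auN hb y z).1 hyz
    obtain rfl := vN_inj hv' hy
    exact (den_auN hc x z).2 ⟨v, hv, hz⟩

/-- the graph of the inverse -/
theorem inv_auN {h : G0} {a c : g.M} (ha : g.Den (auN h) a) (hc : g.Den (auN h⁻¹) c) (x y : g.M) :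
    Rel g.E c x y ↔ Rel g.E a y x := by
  rw [den_auN ha, den_auN hc]
  constructor
  · rintro ⟨v, hv, hy⟩
    refine ⟨h⁻¹ v, hy, ?_⟩
    have : h (h⁻¹ v) = v := h.apply_symm_apply v
    rwa [this]
  · rintro ⟨v, hv, hx⟩
    refine ⟨h v, hx, ?_⟩
    have : h⁻¹ (h v) = v := h.symm_apply_apply v
    rwa [this]

theorem isSubgroupGL_grN {V H : g.M} (hV : g.Den spN V) (hH : g.Den grN H) :
    IsSubgroupGL g.E V H := by
  refine ⟨?_, fun a ha => ?_, fun a b ha hb => ?_, fun a ha => ?_⟩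
  · have := Gen.exists_of_fc (v := ![grN]) (a := ![H]) (den1 hH)
      (R := fun _ E w => E (w 1) (w 0)) (.mem 1 0) g.top_mem (auN 1)
      (fun g' _ w hw => (den_grN (hw 0) _).2 ⟨⊤, g'.top_mem, 1, Subgroup.one_mem _, hw 1⟩)
    obtain ⟨b, hb⟩ := this
    rw [ext_vec1] at hb
    exact ⟨b, hb⟩
  · obtain ⟨p, -, k, -, hk⟩ := (den_grN hH a).1 ha
    exact isLinAut_auN hV hk
  · obtain ⟨p, hp, h, hh, ha'⟩ := (den_grN hH a).1 ha
    obtain ⟨q, hq, k, hk, hb'⟩ := (den_grN hH b).1 hb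
    obtain ⟨r, hr, hrp, hrq⟩ := g.dir p hp q hq
    have hkr : k * h ∈ r.grp := r.grp.mul_mem (hrq hk) (hrp hh)
    have := Gen.exists_of_fc (v := ![grN, auN h, auN k]) (a := ![H, a, b]) (den3 hH ha' hb')
      (R := fun _ E w => E (w 3) (w 0) ∧ ∀ x z, Rel E (w 3) x z ↔
        ∃ y, Rel E (w 1) x y ∧ Rel E (w 2) y z)
      (.and (.mem 3 0) (.all (.all (.iff (dfn_rel _ _ _)
        (.ex (.and (dfn_rel _ _ _) (dfn_rel _ _ _)))))))
      hr (auN (k * h))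
      (fun g' hg' w hw => ⟨(den_grN (hw 0) _).2 ⟨r, hg', k * h, hkr, hw 3⟩,
        comp_auN (hw 1) (hw 2) (hw 3)⟩)
    obtain ⟨c, hc⟩ := this
    rw [ext_vec3] at hc
    exact ⟨c, hc⟩
  · obtain ⟨p, hp, h, hh, ha'⟩ := (den_grN hH a).1 ha
    have := Gen.exists_of_fc (v := ![grN, auN h]) (a := ![H, a]) (den2 hH ha')
      (R := fun _ E w => E (w 2) (w 0) ∧ ∀ x y, Rel E (w 2) x y ↔ Rel E (w 1) y x)
      (.and (.mem 2 0) (.all (.all (.iff (dfn_rel _ _ _) (dfn_rel _ _ _)))))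
      hp (auN h⁻¹)
      (fun g' hg' w hw => ⟨(den_grN (hw 0) _).2 ⟨p, hg', h⁻¹, p.grp.inv_mem hh, hw 2⟩,
        inv_auN (hw 1) (hw 2)⟩)
    obtain ⟨c, hc⟩ := this
    rw [ext_vec2] at hc
    exact ⟨c, hc⟩

theorem proper_grN {V H : g.M} (hV : g.Den spN V) (hH : g.Den grN H) :
    ∃ a, IsLinAut g.E V a ∧ ¬ g.E a H := by
  obtain ⟨t, ht⟩ := exists_not_star (F := ZMod 2) (V := V0) (κ := ℵ₀) le_rfl (by
    rw [rank_finsupp_self]; simp)
  have := Gen.exists_of_fc (v := ![spN, grN]) (a := ![V, H]) (den2 hV hH)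
    (R := fun _ E w => IsLinAut E (w 0) (w 2) ∧ ¬ E (w 2) (w 1))
    (.and (dfn_isLinAut _ _) (.not (.mem _ _))) g.top_mem (auN t)
    (fun g' _ w hw => ⟨isLinAut_auN (hw 0) (hw 2), fun hcon => by
      obtain ⟨p, -, k, hk, hk'⟩ := (den_grN (hw 1) _).1 hcon
      have : t = k := auN_inj (hw 2) hk'
      exact ht (this ▸ p.star k hk)⟩)
  obtain ⟨c, hc⟩ := this
  rw [ext_vec2] at hc
  exact ⟨c, hc⟩

end Pool.Agent.H63.GLF
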