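import Pool.Agent.H63.GLF.Full

/-!
# The generic subgroup induces `GL(U)` on every large subspace `U`
-/

set_option autoImplicit false

namespace Pool.Agent.H63.GLF

open Pool.Agent.H90.Frc Pool.Agent.H14.GLCH Ordinal Cardinal

theorem IsLinAut.mem {M : Type} {E : M → M → Prop} {U f x y : M} (h : IsLinAut E U f)
    (hr : Rel E f x y) : E x U ∧ E y U := by
  obtain ⟨c, hc, hcf⟩ := hr
  obtain ⟨x', y', hx', hy', hc'⟩ := h.1 c hcf
  obtain ⟨rfl, rfl⟩ := hc.inj hc'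
  exact ⟨hx', hy'⟩

/-- the subspace and the automorphism described inside one generic structure -/
theorem exists_real {g : Gen Cnd} {w V U f : g.M} (hw : g.Den (onN Cnd ω) w) (hV : g.Den spN V)
    (hU : IsLarge g.E w V U) (hf : IsLinAut g.E U f) :
    ∃ (S : Submodule (ZMod 2) V0) (φ : S ≃ₗ[ZMod 2] S), CoLarge ℵ₀ S ∧
      ∀ (u v : V0) (x y : g.M), g.Den (vN u) x → g.Den (vN v) y → Rel g.E f x y →
        ∃ hu : u ∈ S, (φ ⟨u, hu⟩ : V0) = v := by
  classical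
  obtain ⟨⟨hUV, hU0, hUadd⟩, -, T, hTV, ⟨i, hi1, hi2⟩, hT⟩ := hU
  choose d hd using exists_den_vN hV
  have hdV : ∀ x, g.E x V → ∃ v, x = d v := by
    intro x hx
    obtain ⟨v, hv⟩ := (den_spN hV x).1 hx
    exact ⟨v, hv.unique (hd v)⟩
  have hdinj : ∀ u v, d u = d v → u = v := by
    intro u v h
    have h1 := hd u
    rw [h] at h1
    exact vN_inj h1 (hd v)
  have hsum : ∀ u v, IsSum g.E (d u) (d v) (d (u + v)) := fun u v =>
    (isSum_iff (hd u) (hd v) (hd (u + v))).2 rfl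
  have hadd : ∀ u v, g.E (d u) U → g.E (d v) U → g.E (d (u + v)) U := fun u v hu hv =>
    hUadd _ _ _ hu hv (hsum u v)
  have hchar : ∀ u : V0, u + u = 0 := by
    intro u
    ext n
    rw [Finsupp.add_apply, Finsupp.zero_apply]
    generalize u n = a
    revert a; decide
  have hzero : g.E (d 0) U := by
    obtain ⟨x, hx⟩ := hU0
    obtain ⟨u, rfl⟩ := hdV x (hUV x hx)
    have := hadd u u hx hx
    rwa [hchar] at this
  let S : Submodule (ZMod 2) V0 :=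
    { carrier := {v | g.E (d v) U}
      add_mem' := fun {u v} hu hv => hadd u v hu hv
      zero_mem' := hzero
      smul_mem' := by
        intro c u hu
        have hc : c = 0 ∨ c = 1 := by revert c; decide
        rcases hc with rfl | rfl
        · rw [zero_smul]; exact hzero
        · rw [one_smul]; exact hu }
  have hS : ∀ v, v ∈ S ↔ g.E (d v) U := fun v => Iff.rfl
  obtain ⟨-, hf2, hf3, hf4, hf5, hf6⟩ := id hf
  -- the map
  have hex : ∀ u : S, ∃ v : S, Rel g.E f (d u) (d v) := by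
    rintro ⟨u, hu⟩
    obtain ⟨y, hy⟩ := hf2 _ hu
    have hyU := (hf.mem hy).2
    obtain ⟨v, rfl⟩ := hdV y (hUV y hyU)
    exact ⟨⟨v, hyU⟩, hy⟩
  choose F hF using hex
  have hFadd : ∀ u v : S, F (u + v) = F u + F v := by
    intro u v
    have h1 := hf6 _ _ _ _ _ _ (hF u) (hF v) (hF (u + v)) (hsum u v)
    rw [isSum_iff (hd _) (hd _) (hd _)] at h1
    exact Subtype.ext h1
  let Fh : S →+ S := AddMonoidHom.mk' F hFadd
  let Fl : S →ₗ[ZMod 2] S := AddMonoidHom.toZModLinearMap 2 Fh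
  have hFl : ∀ u, Fl u = F u := fun u => rfl
  have hbij : Function.Bijective Fl := by
    constructor
    · intro u v huv
      rw [hFl, hFl] at huv
      have h1 := hF u
      rw [huv] at h1
      exact Subtype.ext (hdinj _ _ (hf5 _ _ _ h1 (hF v)))
    · rintro ⟨v, hv⟩
      obtain ⟨x, hx⟩ := hf3 _ hv
      have hxU := (hf.mem hx).1
      obtain ⟨u, rfl⟩ := hdV x (hUV x hxU)
      refine ⟨⟨u, hxU⟩, ?_⟩
      rw [hFl]
      exact Subtype.ext (hdinj _ _ (hf4 _ _ _ (hF ⟨u, hxU⟩) hx))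
  refine ⟨S, LinearEquiv.ofBijective Fl hbij, ?_, ?_⟩
  · -- codimension
    have hb := fun n => exists_den_nat hw n
    choose b hb using hb
    have hbw : ∀ n, g.E (b n) w := fun n => (den_onN hw (b n)).2 ⟨n, natCast_lt_omega0 n, hb n⟩
    have hs : ∀ n, ∃ s : V0, g.E (d s) T ∧ Rel g.E i (b n) (d s) := by
      intro n
      obtain ⟨y, hyT, hy, -⟩ := hi1 (b n) (hbw n)
      obtain ⟨s, rfl⟩ := hdV y (hTV y hyT)
      exact ⟨s, hyT, hy⟩
    choose s hsT hsi using hs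
    have hinj : Function.Injective (fun n => (Submodule.Quotient.mk (s n) : V0 ⧸ S)) := by
      intro n m hnm
      by_contra hne
      have h1 : d (s n) ≠ d (s m) := by
        intro h
        have h2 := hsi n
        rw [h] at h2
        have h3 := hi2 _ _ _ (hbw n) (hbw m) h2 (hsi m)
        have h4 := hb n
        rw [h3] at h4
        exact hne (by exact_mod_cast onN_inj h4 (hb m))
      apply hT _ _ _ (hsT n) (hsT m) h1 (hsum _ _)
      rw [← hS]
      have h2 := (Submodule.Quotient.eq S).1 hnm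
      have h3 : s n + s m = s n - s m := by
        rw [sub_eq_add_neg]
        congr 1
        exact (neg_eq_of_add_eq_zero_left (hchar (s m))).symm
      rw [h3]; exact h2
    have hinf : Infinite (V0 ⧸ S) := Infinite.of_injective _ hinj
    unfold CoLarge
    by_contra hcon
    push Not at hcon
    have := Module.rank_lt_aleph0_iff.1 hcon
    exact (Module.finite_of_finite (ZMod 2) (M := V0 ⧸ S)).not_infinite hinf
  · intro u v x y hu hv hr
    obtain rfl := hu.unique (hd u)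
    obtain rfl := hv.unique (hd v)
    have huU := (hf.mem hr).1
    refine ⟨huU, ?_⟩
    rw [LinearEquiv.ofBijective_apply, hFl]
    exact hdinj _ _ (hf4 _ _ _ (hF ⟨u, huU⟩) hr)

theorem key {σ τ : Name Cnd} {p : Cnd}
    (hp : Fc p ![onN Cnd ω, spN, grN, σ, τ]
      (fun _ E v => IsLarge E (v 0) (v 1) (v 3) ∧ IsLinAut E (v 3) (v 4))) :
    ∃ q ≤ p, ∃ h ∈ q.grp, ∀ g : Gen Cnd, q ∈ g.G → ∀ a : Fin 5 → g.M,
      (∀ i, g.Den (![onN Cnd ω, spN, grN, σ, τ] i) (a i)) → ∀ x y, Rel g.E (a 4) x y →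
        ∃ v, g.Den (vN v) x ∧ g.Den (vN (h v)) y := by
  obtain ⟨q2, hq2, hdec⟩ := decide_all (ι := V0 × V0) (R := fun _ E w => Rel E (w 2) (w 0) (w 1))
    (dfn_rel 2 0 1) (fun z => ![vN z.1, vN z.2, τ]) p
  obtain ⟨g0, hg0, a0, ha0⟩ := exists_gen_fin q2 ![onN Cnd ω, spN, grN, σ, τ]
  obtain ⟨hU0, hf0⟩ := hp g0 (g0.up q2 hg0 p hq2) a0 ha0
  obtain ⟨S, φ, hS, hφ⟩ := exists_real (ha0 0) (ha0 1) hU0 hf0
  obtain ⟨q, hq, h, hh, hext⟩ := exists_step q2 S hS φ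
  refine ⟨q, hq.trans hq2, h, hh, fun g hg a ha x y hxy => ?_⟩
  have hq2g : q2 ∈ g.G := g.up q hg q2 hq
  obtain ⟨hU, hf⟩ := hp g (g.up q2 hq2g p hq2) a ha
  obtain ⟨hxU, hyU⟩ := hf.mem hxy
  obtain ⟨u, hu⟩ := (den_spN (ha 1) x).1 (hU.1.1 x hxU)
  obtain ⟨v, hv⟩ := (den_spN (ha 1) y).1 (hU.1.1 y hyU)
  refine ⟨u, hu, ?_⟩
  have hτ : g.Den τ (a 4) := ha 4
  have hτ0 : g0.Den τ (a0 4) := ha0 4
  have hpos : Fc q2 ![vN u, vN v, τ] (fun _ E w => Rel E (w 2) (w 0) (w 1)) := by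
    rcases hdec (u, v) with h1 | h1
    · exact h1
    · exact absurd hxy (h1 g hq2g ![x, y, a 4] (den3 hu hv hτ))
  obtain ⟨x0, hx0⟩ := exists_den_vN (ha0 1) u
  obtain ⟨y0, hy0⟩ := exists_den_vN (ha0 1) v
  have hr0 := hpos g0 hg0 ![x0, y0, a0 4] (den3 hx0 hy0 hτ0)
  obtain ⟨huS, huv⟩ := hφ u v x0 y0 hx0 hy0 hr0
  have h1 := hext ⟨u, huS⟩
  rw [huv] at h1
  have h2 : h u = v := h1
  rw [h2]
  exact hv

theorem full_grN {g : Gen Cnd} {w V H : g.M} (hw : g.Den (onN Cnd ω) w) (hV : g.Den spN V)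
    (hH : g.Den grN H) (U f : g.M) (hU : IsLarge g.E w V U) (hf : IsLinAut g.E U f) :
    ∃ h, g.E h H ∧ ∀ x y, Rel g.E f x y → Rel g.E h x y := by
  obtain ⟨σ, hσ⟩ := g.exists_den U
  obtain ⟨τ, hτ⟩ := g.exists_den f
  refine Gen.tp (v := ![onN Cnd ω, spN, grN, σ, τ]) (a := ![w, V, H, U, f])
    (den5 hw hV hH hσ hτ)
    (R := fun _ E v => IsLarge E (v 0) (v 1) (v 3) ∧ IsLinAut E (v 3) (v 4))
    (S := fun _ E v => ∃ h, E h (v 2) ∧ ∀ x y, Rel E (v 4) x y → Rel E h x y)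
    (.and (dfn_isLarge 0 1 3) (dfn_isLinAut 3 4))
    (.ex (.and (.mem _ _) (.all (.all (.imp (dfn_rel _ _ _) (dfn_rel _ _ _))))))
    (fun p hp => ?_) ⟨hU, hf⟩
  obtain ⟨q, hq, h, hh, H'⟩ := key hp
  refine ⟨q, hq, {auN h}, Set.countable_singleton _, fun g' hg' hL a ha _ => ?_⟩
  obtain ⟨b, hb⟩ := hL _ rfl
  refine ⟨b, (den_grN (ha 2) b).2 ⟨q, hg', h, hh, hb⟩, fun x y hxy => ?_⟩
  exact (den_auN hb x y).2 (H' g' hg' a ha x y hxy)

end Pool.Agent.H63.GLF
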