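import Pool.Agent.H63.GLF.Stmt
import Pool.Agent.H90.Frc.Tools
import Pool.Agent.H14.GLCH.Main

/-!
# Definability of the statement, and the names used by the forcing
-/

set_option autoImplicit false

namespace Pool.Agent.H63.GLF

open Pool.Agent.H90.Frc Pool.Agent.H14.GLCH Ordinal Cardinal

/-! ### Definability -/

section

variable {n : ℕ}

theorem dfn_isFinSets (i j : Fin n) : Dfn (fun _ E v => IsFinSets E (v i) (v j)) :=
  .all (.iff (.mem _ _) (.and (dfn_isSub _ _) (.ex (.and (.mem _ _)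
    (.all (.imp (.mem _ _) (.mem _ _)))))))

theorem dfn_isSum (i j k : Fin n) : Dfn (fun _ E v => IsSum E (v i) (v j) (v k)) :=
  .all (.iff (.mem _ _) (.iff (.mem _ _) (.not (.mem _ _))))

theorem dfn_isSubspace (i j : Fin n) : Dfn (fun _ E v => IsSubspace E (v i) (v j)) :=
  .and (dfn_isSub _ _) (.and (.ex (.mem _ _)) (.all (.all (.all (.imp (.mem _ _)
    (.imp (.mem _ _) (.imp (dfn_isSum _ _ _) (.mem _ _))))))))

theorem dfn_isLarge (i j k : Fin n) : Dfn (fun _ E v => IsLarge E (v i) (v j) (v k)) :=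
  .and (dfn_isSubspace _ _) (.and (dfn_sizeLe _ _) (.ex (.and (dfn_isSub _ _)
    (.and (dfn_sizeLe _ _) (.all (.all (.all (.imp (.mem _ _) (.imp (.mem _ _)
      (.imp (.not (.eq _ _)) (.imp (dfn_isSum _ _ _) (.not (.mem _ _)))))))))))))

theorem dfn_isLinAut (i j : Fin n) : Dfn (fun _ E v => IsLinAut E (v i) (v j)) :=
  .and (.all (.imp (.mem _ _) (.ex (.ex (.and (.mem _ _) (.and (.mem _ _)
    (dfn_isOPair _ _ _)))))))
  (.and (.all (.imp (.mem _ _) (.ex (dfn_rel _ _ _))))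
  (.and (.all (.imp (.mem _ _) (.ex (dfn_rel _ _ _))))
  (.and (.all (.all (.all (.imp (dfn_rel _ _ _) (.imp (dfn_rel _ _ _) (.eq _ _))))))
  (.and (.all (.all (.all (.imp (dfn_rel _ _ _) (.imp (dfn_rel _ _ _) (.eq _ _))))))
  (.all (.all (.all (.all (.all (.all (.imp (dfn_rel _ _ _) (.imp (dfn_rel _ _ _)
    (.imp (dfn_rel _ _ _) (.imp (dfn_isSum _ _ _) (dfn_isSum _ _ _)))))))))))))))

theorem dfn_isSubgroupGL (i j : Fin n) : Dfn (fun _ E v => IsSubgroupGL E (v i) (v j)) :=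
  .and (.ex (.mem _ _)) (.and (.all (.imp (.mem _ _) (dfn_isLinAut _ _))) (.and
    (.all (.all (.imp (.mem _ _) (.imp (.mem _ _) (.ex (.and (.mem _ _)
      (.all (.all (.iff (dfn_rel _ _ _) (.ex (.and (dfn_rel _ _ _) (dfn_rel _ _ _))))))))))))
    (.all (.imp (.mem _ _) (.ex (.and (.mem _ _)
      (.all (.all (.iff (dfn_rel _ _ _) (dfn_rel _ _ _))))))))))

theorem dfn_fails : Dfn (n := n) (fun _ E _ => Fails E) :=
  .ex (.ex (.ex (.and (dfn_isOmega _) (.and (dfn_isFinSets _ _) (.and (dfn_isSubgroupGL _ _)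
    (.and (.ex (.and (dfn_isLinAut _ _) (.not (.mem _ _))))
    (.all (.all (.imp (dfn_isLarge _ _ _) (.imp (dfn_isLinAut _ _) (.ex (.and (.mem _ _)
      (.all (.all (.imp (dfn_rel _ _ _) (dfn_rel _ _ _))))))))))))))))

end

end Pool.Agent.H63.GLF
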