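import Pool.Agent.H63.GLF.Names

/-!
# The partial order: countable subgroups of `GL(V)` all of whose elements have property `Star`

It is countably closed; names for the vectors, the space, the automorphisms and the generic
subgroup.
-/

set_option autoImplicit false

namespace Pool.Agent.H63.GLF

open Pool.Agent.H90.Frc Pool.Agent.H14.GLCH Ordinal Cardinal

/-- the vector space of countable dimension over the field with two elements -/
abbrev V0 : Type := ℕ →₀ ZMod 2

/-- its general linear group -/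
abbrev G0 : Type := V0 ≃ₗ[ZMod 2] V0

/-- The conditions. -/
structure Cnd : Type where
  /-- the subgroup -/
  grp : Subgroup G0
  cnt : (grp : Set G0).Countable
  star : ∀ g ∈ grp, Star ℵ₀ g

theorem Cnd.ext' {p q : Cnd} (h : p.grp = q.grp) : p = q := by
  cases p; cases q; simp only at h; subst h; rfl

instance : PartialOrder Cnd where
  le p q := q.grp ≤ p.grp
  le_refl p := le_refl p.grp
  le_trans p q r h h' := le_trans (α := Subgroup G0) h' h
  le_antisymm p q h h' := Cnd.ext' (le_antisymm (α := Subgroup G0) h' h)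

theorem Cnd.le_iff {p q : Cnd} : p ≤ q ↔ q.grp ≤ p.grp := Iff.rfl

noncomputable instance : OrderTop Cnd where
  top := ⟨⊥, by
      have : ((⊥ : Subgroup G0) : Set G0) = {1} := rfl
      rw [this]; exact Set.countable_singleton _, by
      intro g hg
      rw [Subgroup.mem_bot] at hg
      rw [hg]; exact star_one ℵ₀⟩
  le_top p := (bot_le : (⊥ : Subgroup G0) ≤ p.grp)

/-- countable closure -/
theorem exists_lower (p : ℕ → Cnd) (h : ∀ n, p (n + 1) ≤ p n) : ∃ q, ∀ n, q ≤ p n := by
  have hanti : Antitone p := antitone_nat_of_succ_le h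
  have hdir : Directed (· ≤ ·) (fun n => (p n).grp) := by
    intro m n
    exact ⟨max m n, hanti (le_max_left m n), hanti (le_max_right m n)⟩
  refine ⟨⟨⨆ n, (p n).grp, ?_, ?_⟩, fun n => ?_⟩
  · rw [Subgroup.coe_iSup_of_directed hdir]
    exact Set.countable_iUnion fun n => (p n).cnt
  · intro g hg
    rw [Subgroup.mem_iSup_of_directed hdir] at hg
    obtain ⟨n, hn⟩ := hg
    exact (p n).star g hn
  · exact le_iSup (fun n => (p n).grp) n

/-- countably many decisions can be made simultaneously -/
theorem decide_all {ι : Type} [Countable ι] [Nonempty ι] {n : ℕ} {R : Pred n} (hR : Dfn R)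
    (v : ι → Fin n → Name Cnd) (p : Cnd) :
    ∃ q ≤ p, ∀ i, Fc q (v i) R ∨ Fc q (v i) (fun M E a => ¬ R M E a) := by
  obtain ⟨e, he⟩ := exists_surjective_nat ι
  choose f hf hd using fun (i : ι) (q : Cnd) => Fc.decide hR (v i) q
  let s : ℕ → Cnd := fun n => Nat.rec p (fun n q => f (e n) q) n
  have hs : ∀ n, s (n + 1) = f (e n) (s n) := fun n => rfl
  obtain ⟨q, hq⟩ := exists_lower s (fun n => by rw [hs]; exact hf _ _)
  refine ⟨q, hq 0, fun i => ?_⟩
  obtain ⟨m, rfl⟩ := he i
  rcases hd (e m) (s m) with h | h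
  · exact Or.inl (h.mono (hq (m + 1)))
  · exact Or.inr (h.mono (hq (m + 1)))

/-- the one-step extension -/
theorem exists_step (p : Cnd) (U : Submodule (ZMod 2) V0) (hU : CoLarge ℵ₀ U) (f : U ≃ₗ[ZMod 2] U) :
    ∃ q ≤ p, ∃ h ∈ q.grp, ∀ u : U, h (u : V0) = (f u : V0) := by
  have hF : #(ZMod 2) ≤ ℵ₀ := Cardinal.mk_le_aleph0
  have hV : Module.rank (ZMod 2) V0 ≤ ℵ₀ := by
    rw [rank_finsupp_self]; simp
  obtain ⟨h, h1, h2⟩ := exists_ext (κ := ℵ₀) le_rfl hF hV p.grp
    (by have := p.cnt; rw [← Cardinal.le_aleph0_iff_set_countable] at this; exact this) U hU f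
  refine ⟨⟨p.grp ⊔ Subgroup.closure {h}, ?_, ?_⟩, ?_, h, ?_, h1⟩
  · have e : p.grp ⊔ Subgroup.closure {h} = Subgroup.closure ((p.grp : Set G0) ∪ {h}) := by
      rw [Subgroup.closure_union, Subgroup.closure_eq]
    rw [e, ← Cardinal.le_aleph0_iff_set_countable]
    refine mk_closure_le _ le_rfl ?_
    rw [Cardinal.le_aleph0_iff_set_countable]
    exact p.cnt.union (Set.countable_singleton _)
  · exact star_closure le_rfl p.grp p.star h h2
  · exact (le_sup_left : p.grp ≤ p.grp ⊔ Subgroup.closure {h})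
  · exact Subgroup.mem_sup_right (Subgroup.subset_closure rfl)

end Pool.Agent.H63.GLF
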