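import Pool.Agent.H90.Frc.Stmt

/-!
# The failure of the question for `κ = ℵ₀` and `F = 𝔽₂`, as a statement about `(M, E)`

Everything is about an arbitrary structure `(M, E)` with one binary relation `E`, read as
membership; all quantifiers range over `M`.  The vector space is the set `V` of all finite subsets
of `ω` with the symmetric difference as addition: this is the vector space of countable dimension
over the field with two elements, with basis the singletons.
-/

set_option autoImplicit false

namespace Pool.Agent.H63.GLF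

open Pool.Agent.H90.Frc

variable {M : Type} (E : M → M → Prop)

/-- `V` is the set of all finite subsets of `ω`, that is, of all subsets of `ω` bounded by some
natural number; `w` stands for `ω`. -/
def IsFinSets (w V : M) : Prop :=
  ∀ x, E x V ↔ IsSub E x w ∧ ∃ n, E n w ∧ ∀ m, E m x → E m n

/-- `z` is the symmetric difference of `x` and `y`; this is the addition of `V`. -/
def IsSum (x y z : M) : Prop := ∀ t, E t z ↔ (E t x ↔ ¬ E t y)

/-- `U` is a subspace of `V`. -/
def IsSubspace (V U : M) : Prop :=
  IsSub E U V ∧ (∃ x, E x U) ∧ ∀ x y z, E x U → E y U → IsSum E x y z → E z U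

/-- `U` is a large subspace of `V`: it is infinite (so `dim U = ℵ₀`) and `V/U` is infinite (so
`dim V/U = ℵ₀`), that is, there is an infinite set `T` of vectors which are pairwise incongruent
modulo `U`; `w` stands for `ω`. -/
def IsLarge (w V U : M) : Prop :=
  IsSubspace E V U ∧ SizeLe E w U ∧
    ∃ T, IsSub E T V ∧ SizeLe E w T ∧
      ∀ x y z, E x T → E y T → x ≠ y → IsSum E x y z → ¬ E z U

/-- `g` is an element of `GL(U)`: a set of ordered pairs of elements of `U` which is (the graph of)
a bijective linear map from `U` to `U`. -/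
def IsLinAut (U g : M) : Prop :=
  (∀ c, E c g → ∃ x y, E x U ∧ E y U ∧ IsOPair E x y c) ∧
  (∀ x, E x U → ∃ y, Rel E g x y) ∧ (∀ y, E y U → ∃ x, Rel E g x y) ∧
  (∀ x y y', Rel E g x y → Rel E g x y' → y = y') ∧
  (∀ x x' y, Rel E g x y → Rel E g x' y → x = x') ∧
  ∀ x y z x' y' z', Rel E g x x' → Rel E g y y' → Rel E g z z' →
    IsSum E x y z → IsSum E x' y' z'

/-- `H` is a subgroup of `GL(V)`. -/
def IsSubgroupGL (V H : M) : Prop :=
  (∃ g, E g H) ∧ (∀ g, E g H → IsLinAut E V g) ∧
  (∀ g h, E g H → E h H → ∃ k, E k H ∧ ∀ x z, Rel E k x z ↔ ∃ y, Rel E g x y ∧ Rel E h y z) ∧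
  ∀ g, E g H → ∃ k, E k H ∧ ∀ x y, Rel E k x y ↔ Rel E g y x

/-- The assertion of Q1 fails for `κ = ℵ₀` and the field with two elements: there is a proper
subgroup `H` of `GL(V)` such that for every large subspace `U` of `V` every element `f` of `GL(U)`
is the restriction of some `h ∈ H` (which then maps `U` onto `U`). -/
def Fails : Prop :=
  ∃ w V H, IsOmega E w ∧ IsFinSets E w V ∧ IsSubgroupGL E V H ∧
    (∃ g, IsLinAut E V g ∧ ¬ E g H) ∧
    ∀ U f, IsLarge E w V U → IsLinAut E U f → ∃ h, E h H ∧ ∀ x y, Rel E f x y → Rel E h x y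

end Pool.Agent.H63.GLF
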